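import Pool.Agent.Helper76.PUB.Main

/-!
# The number of self-avoiding walks on the honeycomb lattice is at most `C n ^ C μ ^ n`

There is `C` such that for all `n ≥ 1` the number of `n`-step self-avoiding walks on the honeycomb
lattice is at most `C * n ^ C * μ ^ n`, where `μ = √(2 + √2)`.
-/

namespace Pool.Agent.Results.MP_b440f6_pr.PolynomialUpperBound

open Pool.Agent.Helper98.SawDefs

theorem result :
    ∃ C : ℝ, ∀ n : ℕ, 1 ≤ n → ((walks n).ncard : ℝ) ≤
      C * (n : ℝ) ^ C * Real.sqrt (2 + Real.sqrt 2) ^ n :=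
  Pool.Agent.Helper76.PUB.walks_poly_main

end Pool.Agent.Results.MP_b440f6_pr.PolynomialUpperBound
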