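import Pool.Agent.Helper64.SR.Final
import Pool.Agent.Helper92.Saw.All

/-!
# Scaling relations for the self-avoiding walk on the honeycomb lattice

Notation: `μ = √(2 + √2)`, `xcrit = 1 / μ`, `xn n = exp (-1 / n) / μ`; `gf s x = ∑ |s n| x ^ n`;
`R n` is the square root of the largest mean-square displacement `D k`, `k ≤ n`; `S r` is the critical
mass of the bridges of height at most `r`; `xi x` is the correlation length; `A n` is the critical mass
of the arches with more than `n` steps.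

The number `c_n` of walks satisfies `c_n ≥ (4 / 5) n ^ (1 / 131) μ ^ n` for every `n`.  For all `ε > 0`,
`K > 0` there is `c > 0` such that for all large `n`, at the scale `R = R n` and up to factors `n ^ (± ε)`:
(1) the product of the generating functions of the walks and of the bridges at `xn n` is the square of
the generating function of the half-plane walks;
(2) the generating function of the bridges at `xn n` is `S R`;
(3) the correlation length at `xn n` is `R`;
(4) `c_n μ ^ (-n) R ^ 2 ≥ n ^ (1 - ε) S R`;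
(5) at most `n ^ (-K) c_n` of the `n`-step walks have a diameter larger than `n ^ ε R`, and at `xn n` the
walks whose diameter is not between `n ^ (-ε) R` and `n ^ ε R` have at most the share `n ^ (-c)` of the
generating function of the walks;
(6) `S R ≤ n ^ ε R (A n)`.
-/

namespace Pool.Agent.Results.MP_b440f6_pr.ScalingRelations

open Pool.Agent.Helper98.SawDefs Pool.Agent.Helper64.SRDefs

theorem result :
    (∀ n : ℕ, 4 / 5 * (n : ℝ) ^ (1 / 131 : ℝ) * Real.sqrt (2 + Real.sqrt 2) ^ n ≤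
      ((walks n).ncard : ℝ)) ∧
    ∀ ε K : ℝ, 0 < ε → 0 < K → ∃ (c : ℝ) (n₀ : ℕ), 0 < c ∧ ∀ n : ℕ, n₀ ≤ n →
      (Summable fun k : ℕ => ((walks k).ncard : ℝ) * xn n ^ k) ∧
      ((n : ℝ) ^ (-ε) * gf halfPlane (xn n) ^ 2 ≤ gf walks (xn n) * gf bridges (xn n) ∧
        gf walks (xn n) * gf bridges (xn n) ≤ (n : ℝ) ^ ε * gf halfPlane (xn n) ^ 2) ∧
      ((n : ℝ) ^ (-ε) * S (R n) ≤ gf bridges (xn n) ∧
        gf bridges (xn n) ≤ (n : ℝ) ^ ε * S (R n)) ∧
      ((n : ℝ) ^ (-ε) * R n ≤ xi (xn n) ∧ xi (xn n) ≤ (n : ℝ) ^ ε * R n) ∧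
      (n : ℝ) ^ (1 - ε) * S (R n) ≤ ((walks n).ncard * xcrit ^ n) * R n ^ 2 ∧
      ((({w ∈ walks n | (n : ℝ) ^ ε * R n < Metric.diam (Set.range w)}.ncard : ℕ) : ℝ) ≤
          (n : ℝ) ^ (-K) * (walks n).ncard ∧
        gf (unusual ((n : ℝ) ^ (-ε) * R n) ((n : ℝ) ^ ε * R n)) (xn n) ≤
          (n : ℝ) ^ (-c) * gf walks (xn n)) ∧
      S (R n) ≤ (n : ℝ) ^ ε * (R n * A n) :=
  ⟨Pool.Agent.Helper92.Saw.walks_all, fun ε K hε hK =>
    Pool.Agent.Helper64.SR.Final.final ε K hε hK⟩

end Pool.Agent.Results.MP_b440f6_pr.ScalingRelations
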