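import Pool.Agent.Helper22.FPS.Fin

/-!
# The self-avoiding walk on the honeycomb lattice is subballistic with a power

There is `δ > 0` such that: (1) the mean-square displacement `D n` of the uniformly random `n`-step
self-avoiding walk is at most `n ^ (2 - δ)` for every `n ≥ 1`; (2) for all large `n`, at most the
fraction `exp (-√n)` of the `n`-step walks contains a vertex at a distance of at least `n ^ (1 - δ)`
from the starting point.
-/

namespace Pool.Agent.Results.MP_b440f6_pr.SubballisticExponent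

open Pool.Agent.Helper98.SawDefs

theorem result : ∃ δ : ℝ, 0 < δ ∧ (∀ n : ℕ, 1 ≤ n → D n ≤ (n : ℝ) ^ (2 - δ)) ∧
    ∃ n₀ : ℕ, ∀ n : ℕ, n₀ ≤ n →
      ({w ∈ walks n | ∃ i, (n : ℝ) ^ (1 - δ) ≤ ‖w i‖}.ncard : ℝ) ≤
        Real.exp (-((n : ℝ) ^ (1 / 2 : ℝ))) * ((walks n).ncard : ℝ) :=
  Pool.Agent.Helper22.FPS.strong

end Pool.Agent.Results.MP_b440f6_pr.SubballisticExponent
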