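import Pool.Agent.Helper22.AN.Main

/-!
# The self-avoiding walk on the honeycomb lattice is superdiffusive

There is `δ > 0` such that: (1) the mean-square displacement `D n` of the uniformly random `n`-step
self-avoiding walk is at least `c n ^ (1 + δ)` for every `n ≥ 1`; (2) for every `ε > 0` and all large
`n`, a proportion at least `n ^ (-ε)` of the `n`-step walks ends at a distance at least
`n ^ (1 / 2 + δ)` from the starting point; (3) for all large `n`, all but a proportion `exp (-√n)` of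
the `n`-step walks leave the disc of radius `n ^ (1 / 2 + δ)` about the starting point.
-/

namespace Pool.Agent.Results.MP_b440f6_pr.Superdiffusive

open Pool.Agent.Helper98.SawDefs

theorem result : ∃ δ : ℝ, 0 < δ ∧
    (∃ c : ℝ, 0 < c ∧ ∀ n : ℕ, 1 ≤ n → c * (n : ℝ) ^ (1 + δ) ≤ D n) ∧
    (∀ ε : ℝ, 0 < ε → ∃ n₁ : ℕ, ∀ n : ℕ, n₁ ≤ n →
      (n : ℝ) ^ (-ε) * ((walks n).ncard : ℝ) ≤
        ({w ∈ walks n | (n : ℝ) ^ (1 / 2 + δ) ≤ ‖w (Fin.last n)‖}.ncard : ℝ)) ∧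
    ∃ n₀ : ℕ, ∀ n : ℕ, n₀ ≤ n →
      ({w ∈ walks n | ∀ i, ‖w i‖ ≤ (n : ℝ) ^ (1 / 2 + δ)}.ncard : ℝ) ≤
        Real.exp (-((n : ℝ) ^ (1 / 2 : ℝ))) * ((walks n).ncard : ℝ) :=
  Pool.Agent.Helper22.AN.main

end Pool.Agent.Results.MP_b440f6_pr.Superdiffusive
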